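import Pool.Agent.H94.NF.S

/-!
# NF: DS3 (the discriminant of a singular cubic polynomial) and DB3 (the size of the primes)
-/

set_option autoImplicit false

namespace Pool.NF

open Polynomial NumberField IsDedekindDomain

theorem ds3 (hPT : PT3Stmt) : DS3Stmt := by
  intro R _ P hP a₁ a₂ a₃ hS
  obtain ⟨r, h1, h2⟩ := hPT R P hP a₁ a₂ a₃ hS
  have key : dsc a₁ a₂ a₃ =
      ((a₁ + 3 * r) ^ 2 - 4 * (3 * r ^ 2 + 2 * a₁ * r + a₂)) *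
        (3 * r ^ 2 + 2 * a₁ * r + a₂) ^ 2 +
      (-4 * (a₁ + 3 * r) ^ 3 - 27 * (r ^ 3 + a₁ * r ^ 2 + a₂ * r + a₃) +
        18 * (a₁ + 3 * r) * (3 * r ^ 2 + 2 * a₁ * r + a₂)) *
        (r ^ 3 + a₁ * r ^ 2 + a₂ * r + a₃) := by
    unfold dsc
    ring
  rw [key]
  exact Ideal.add_mem _ (Ideal.mul_mem_left _ _ (Ideal.pow_mem_pow h2 2))
    (Ideal.mul_mem_left _ _ h1)

private theorem mem_bx {K : Type} [Field K] [NumberField K] {a : 𝓞 K} {ρ : ℝ}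
    (h : a ∈ Bx K ρ) (σ : K →+* ℂ) : ‖σ (a : K)‖ ≤ ρ := h σ

theorem dsc_bx {K : Type} [Field K] [NumberField K] {B Y : ℝ} (hB : 0 < B) (hY : 1 ≤ Y)
    {a₁ a₂ a₃ : 𝓞 K} (h1 : a₁ ∈ Bx K (B * Y)) (h2 : a₂ ∈ Bx K (B * Y ^ 2))
    (h3 : a₃ ∈ Bx K (B * Y ^ 3)) :
    dsc a₁ a₂ a₃ ∈ Bx K ((5 * B ^ 4 + 22 * B ^ 3 + 27 * B ^ 2) * Y ^ 6) := by
  intro σ
  have e1 := h1 σ
  have e2 := h2 σ
  have e3 := h3 σ
  set x := σ (a₁ : K) with hx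
  set y := σ (a₂ : K) with hy
  set z := σ (a₃ : K) with hz
  have hY0 : 0 ≤ Y := by linarith
  have he : σ ((dsc a₁ a₂ a₃ : 𝓞 K) : K) =
      x ^ 2 * y ^ 2 - 4 * y ^ 3 - 4 * x ^ 3 * z - 27 * z ^ 2 + 18 * x * y * z := by
    unfold dsc
    simp only [map_add, map_sub, map_mul, map_pow, map_ofNat]
    rfl
  rw [he]
  have n1 : ‖x ^ 2 * y ^ 2‖ ≤ B ^ 4 * Y ^ 6 := by
    rw [norm_mul, norm_pow, norm_pow]
    calc ‖x‖ ^ 2 * ‖y‖ ^ 2 ≤ (B * Y) ^ 2 * (B * Y ^ 2) ^ 2 := by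
          gcongr
      _ = B ^ 4 * Y ^ 6 := by ring
  have n2 : ‖4 * y ^ 3‖ ≤ 4 * (B ^ 3 * Y ^ 6) := by
    rw [norm_mul, norm_pow]
    have : ‖(4 : ℂ)‖ = 4 := by simp
    rw [this]
    calc 4 * ‖y‖ ^ 3 ≤ 4 * (B * Y ^ 2) ^ 3 := by gcongr
      _ = 4 * (B ^ 3 * Y ^ 6) := by ring
  have n3 : ‖4 * x ^ 3 * z‖ ≤ 4 * (B ^ 4 * Y ^ 6) := by
    rw [norm_mul, norm_mul, norm_pow]
    have : ‖(4 : ℂ)‖ = 4 := by simp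
    rw [this]
    calc 4 * ‖x‖ ^ 3 * ‖z‖ ≤ 4 * (B * Y) ^ 3 * (B * Y ^ 3) := by gcongr
      _ = 4 * (B ^ 4 * Y ^ 6) := by ring
  have n4 : ‖27 * z ^ 2‖ ≤ 27 * (B ^ 2 * Y ^ 6) := by
    rw [norm_mul, norm_pow]
    have : ‖(27 : ℂ)‖ = 27 := by simp
    rw [this]
    calc 27 * ‖z‖ ^ 2 ≤ 27 * (B * Y ^ 3) ^ 2 := by gcongr
      _ = 27 * (B ^ 2 * Y ^ 6) := by ring
  have n5 : ‖18 * x * y * z‖ ≤ 18 * (B ^ 3 * Y ^ 6) := by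
    rw [norm_mul, norm_mul, norm_mul]
    have : ‖(18 : ℂ)‖ = 18 := by simp
    rw [this]
    calc 18 * ‖x‖ * ‖y‖ * ‖z‖ ≤ 18 * (B * Y) * (B * Y ^ 2) * (B * Y ^ 3) := by gcongr
      _ = 18 * (B ^ 3 * Y ^ 6) := by ring
  have t1 := norm_add_le (x ^ 2 * y ^ 2 - 4 * y ^ 3 - 4 * x ^ 3 * z - 27 * z ^ 2)
    (18 * x * y * z)
  have t2 := norm_sub_le (x ^ 2 * y ^ 2 - 4 * y ^ 3 - 4 * x ^ 3 * z) (27 * z ^ 2)
  have t3 := norm_sub_le (x ^ 2 * y ^ 2 - 4 * y ^ 3) (4 * x ^ 3 * z)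
  have t4 := norm_sub_le (x ^ 2 * y ^ 2) (4 * y ^ 3)
  linarith

theorem ni_pow {K : Type} [Field K] [NumberField K] (I : Ideal (𝓞 K)) (k : ℕ) :
    Ni (I ^ k) = Ni I ^ k := by
  have h : ∀ J : Ideal (𝓞 K), Ni J = Ideal.absNorm J := by
    intro J
    rw [Ideal.absNorm_apply, Submodule.cardQuot_apply]
    rfl
  rw [h, h, map_pow]

theorem db3 (hDS : DS3Stmt) (hN : NRMStmt) : DB3Stmt := by
  intro K _ _ B hB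
  set D : ℝ := 5 * B ^ 4 + 22 * B ^ 3 + 27 * B ^ 2 with hD
  have hD0 : 0 < D := by positivity
  refine ⟨(1 + D) ^ dg K, by positivity, ?_⟩
  intro a₁ a₂ a₃ Y hY h1 h2 h3 hne P hS
  have hmem : dsc a₁ a₂ a₃ ∈ P.asIdeal ^ 2 := hDS (𝓞 K) P.asIdeal P.isMaximal a₁ a₂ a₃ hS
  have hb := dsc_bx hB hY h1 h2 h3
  have hn := ((hN K (dsc a₁ a₂ a₃) _ hb).2 hne).2 (P.asIdeal ^ 2) hmem
  rw [ni_pow] at hn
  push_cast at hn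
  have hY0 : 0 ≤ Y := by linarith
  have h4 : (D * Y ^ 6) ^ dg K ≤ ((1 + D) ^ dg K * (Y ^ 3) ^ dg K) ^ 2 := by
    rw [← mul_pow, ← pow_mul, mul_comm (dg K) 2, pow_mul]
    apply pow_le_pow_left₀ (by positivity)
    have h5 : D ≤ (1 + D) ^ 2 := by nlinarith
    calc D * Y ^ 6 ≤ (1 + D) ^ 2 * Y ^ 6 := by gcongr
      _ = ((1 + D) * Y ^ 3) ^ 2 := by ring
  have h6 := le_trans hn h4
  exact (pow_le_pow_iff_left₀ (by positivity) (by positivity) (by norm_num)).1 h6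

end Pool.NF
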